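import Pool.Agent.Helper91.KZ.StS

namespace Pool.Agent.Helper90.KZ

open Polynomial TensorProduct Cardinal Pool.Agent.Helper91.KZ

universe u

/-- Amitsur's trick -/
theorem alg_key {E R : Type u} [Field E] [Ring R] [Algebra E R] (hr : Module.rank E R ≤ ℵ₀)
    (x : R) (T : Set E) (hT : ¬ T.Countable)
    (h : ∀ l ∈ T, ∃ u : R, u * (x - algebraMap E R l) = 1) : IsIntegral E x := by
  classical
  choose! u hu using h
  have hnl : ¬ LinearIndependent E (fun l : T => u l) := by
    intro hl
    have h1 := hl.cardinal_le_rank
    exact hT (Cardinal.le_aleph0_iff_set_countable.1 (h1.trans hr))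
  rw [not_linearIndependent_iff] at hnl
  obtain ⟨s, g, hs, i, his, hgi⟩ := hnl
  let P : E[X] := ∏ j ∈ s, (X - C (j : E))
  let G : E[X] := ∑ k ∈ s, C (g k) * ∏ j ∈ s.erase k, (X - C (j : E))
  have hG : aeval x G = 0 := by
    have h1 : aeval x G = (∑ k ∈ s, g k • u k) * aeval x P := by
      simp only [G, map_sum, Finset.sum_mul]
      refine Finset.sum_congr rfl fun k hk => ?_
      have h2 : P = (X - C (k : E)) * ∏ j ∈ s.erase k, (X - C (j : E)) := by
        simp only [P]
        exact (Finset.mul_prod_erase s (fun j : T => (X - C (j : E))) hk).symm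
      rw [h2, map_mul, map_mul, map_sub, aeval_X, aeval_C, aeval_C, ← mul_assoc,
        smul_mul_assoc, hu k k.2, ← Algebra.smul_def, smul_mul_assoc, one_mul]
    rw [h1, hs, zero_mul]
  have hG0 : G ≠ 0 := by
    intro h0
    have h1 : G.eval (i : E) = g i * ∏ j ∈ s.erase i, ((i : E) - j) := by
      simp only [G, eval_finsetSum, eval_mul, eval_C, eval_prod, eval_sub, eval_X]
      rw [Finset.sum_eq_single i]
      · intro k hk hki
        rw [mul_eq_zero]
        right
        refine Finset.prod_eq_zero (i := i) (Finset.mem_erase.2 ⟨hki.symm, his⟩) ?_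
        simp
      · intro h2
        exact absurd his h2
    rw [h0, eval_zero] at h1
    rcases mul_eq_zero.1 h1.symm with h2 | h2
    · exact hgi h2
    · rw [Finset.prod_eq_zero_iff] at h2
      obtain ⟨j, hj, hj2⟩ := h2
      rw [Finset.mem_erase] at hj
      exact hj.1 (Subtype.ext (sub_eq_zero.1 hj2).symm)
  exact isAlgebraic_iff_isIntegral.1 ⟨G, hG0, hG⟩

/-- the case of countable dimension -/
theorem alg_countable {E B S : Type u} [Field E] [Uncountable E] [DivisionRing B] [Algebra E B]
    [Ring S] [Algebra E S] [FiniteDimensional E S] (hB : Module.rank E B ≤ ℵ₀)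
    (x : B ⊗[E] S) : IsIntegral E x := by
  classical
  have hst : IsScalarTower B (B ⊗[E] S) (B ⊗[E] S) := inferInstance
  have hfin : Module.Finite B (B ⊗[E] S) := inferInstance
  let f : (B ⊗[E] S) →ₗ[B] (B ⊗[E] S) :=
    { toFun := fun v => v * x
      map_add' := fun v w => add_mul v w x
      map_smul' := fun b v => smul_mul_assoc b v x }
  let T : Set E := {l | ∃ v : B ⊗[E] S, v ≠ 0 ∧ v * x = l • v}
  have hTf : T.Finite := by
    have : ∀ l : T, ∃ v : B ⊗[E] S, v ≠ 0 ∧ v * x = (l : E) • v := fun l => l.2
    choose v hv0 hv using this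
    have hli : LinearIndependent B v := by
      rw [linearIndependent_iff']
      intro s g hg
      by_contra hne
      push Not at hne
      obtain ⟨i, his, hgi⟩ := hne
      let t : Finset T := s.filter (fun j => g j ≠ 0)
      let w : t → B ⊗[E] S := fun j => g j • v j
      have hw : LinearIndependent E w := by
        refine Module.End.eigenvectors_linearIndependent' (f.restrictScalars E)
          (fun j : t => ((j : T) : E)) ?_ w ?_
        · intro a b hab
          exact Subtype.ext (Subtype.ext hab)
        · intro j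
          rw [Module.End.hasEigenvector_iff, Module.End.mem_eigenspace_iff]
          have hj := (Finset.mem_filter.1 j.2).2
          refine ⟨?_, ?_⟩
          · change (g j • v j) * x = _
            rw [smul_mul_assoc, hv, smul_comm]
          · exact smul_ne_zero hj (hv0 j)
      rw [linearIndependent_iff'] at hw
      have hsum : ∑ j : t, (1 : E) • w j = 0 := by
        simp only [one_smul, w]
        rw [Finset.sum_coe_sort t (fun j => g j • v j)]
        rw [← hg]
        simp only [t]
        rw [Finset.sum_filter]
        refine Finset.sum_congr rfl fun j _ => ?_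
        by_cases hj : g j = 0
        · simp [hj]
        · simp [hj]
      exact one_ne_zero (hw Finset.univ (fun _ => 1) hsum
        ⟨i, Finset.mem_filter.2 ⟨his, hgi⟩⟩ (Finset.mem_univ _))
    have hfi : Finite T := hli.finite
    exact Set.toFinite T
  refine alg_key ?_ x Tᶜ ?_ ?_
  · rw [rank_tensorProduct']
    have h1 : Module.rank E S ≤ ℵ₀ := (Module.rank_lt_aleph0 E S).le
    calc Module.rank E B * Module.rank E S ≤ ℵ₀ * ℵ₀ := mul_le_mul' hB h1
      _ = ℵ₀ := Cardinal.aleph0_mul_aleph0
  · intro hc
    have : (Set.univ : Set E).Countable := by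
      rw [← Set.union_compl_self T]
      exact hTf.countable.union hc
    exact Set.not_countable_univ this
  · intro l hl
    let f' : (B ⊗[E] S) →ₗ[B] (B ⊗[E] S) :=
      { toFun := fun v => v * (x - algebraMap E _ l)
        map_add' := fun v w => add_mul v w _
        map_smul' := fun b v => smul_mul_assoc b v _ }
    have hinj : Function.Injective f' := by
      rw [← LinearMap.ker_eq_bot, LinearMap.ker_eq_bot']
      intro v hv
      by_contra hv0
      refine hl ⟨v, hv0, ?_⟩
      have : v * (x - algebraMap E _ l) = 0 := hv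
      rw [mul_sub, sub_eq_zero, ← Algebra.commutes, ← Algebra.smul_def] at this
      exact this
    obtain ⟨u, hu⟩ := (LinearMap.injective_iff_surjective.1 hinj) 1
    exact ⟨u, hu⟩

theorem ALG : ST_ALG.{u} := by
  classical
  intro E D S _ _ _ _ _ _ _ hD x
  obtain ⟨s, hs⟩ := TensorProduct.exists_finset x
  let t : Set D := (s.image Prod.snd : Finset D)
  let B : Subalgebra E D := Algebra.adjoin E t
  have ht : ∀ d ∈ s, d.2 ∈ B := by
    intro d hd
    refine Algebra.subset_adjoin ?_
    simp only [t, Finset.coe_image, Set.mem_image, Finset.mem_coe]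
    exact ⟨d, hd, rfl⟩
  have hr : Module.rank E B ≤ ℵ₀ := by
    refine (Algebra.rank_adjoin_le t).trans ?_
    refine max_le ?_ le_rfl
    rw [Cardinal.le_aleph0_iff_set_countable]
    exact Finset.countable_toSet _
  have hinv : ∀ b : B, b ≠ 0 → ∃ c : B, c * b = 1 := by
    intro b hb
    have hi : IsIntegral E (b : D) := hD b
    have h0 : (minpoly E (b : D)).coeff 0 ≠ 0 :=
      minpoly.coeff_zero_ne_zero hi (fun h => hb (Subtype.ext h))
    set q := minpoly E (b : D) with hq
    have h1 : aeval b q = 0 := by
      apply Subtype.ext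
      have := minpoly.aeval E (b : D)
      rw [← hq] at this
      have h2 := Polynomial.aeval_algHom_apply B.val b q
      change aeval (b : D) q = ((aeval b q : B) : D) at h2
      rw [← h2, this]
      rfl
    have h2 := congrArg (aeval b) (Polynomial.divX_mul_X_add q)
    rw [h1, map_add, map_mul, aeval_X, aeval_C] at h2
    refine ⟨algebraMap E B (-(q.coeff 0)⁻¹) * aeval b q.divX, ?_⟩
    rw [mul_assoc, eq_neg_of_add_eq_zero_left h2, ← map_neg, ← map_mul]
    rw [neg_mul_neg, inv_mul_cancel₀ h0, map_one]
  have hnt : Nontrivial B := inferInstance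
  let iB : DivisionRing B := DivisionRing.ofIsUnitOrEqZero (fun b => by
    by_cases hb : b = 0
    · exact Or.inr hb
    · left
      obtain ⟨c, hc⟩ := hinv b hb
      have hc0 : c ≠ 0 := by
        intro h
        rw [h, zero_mul] at hc
        exact zero_ne_one hc
      obtain ⟨e, he⟩ := hinv c hc0
      have : e = b := by
        calc e = e * (c * b) := by rw [hc, mul_one]
          _ = b := by rw [← mul_assoc, he, one_mul]
      rw [this] at he
      exact ⟨⟨b, c, he, hc⟩, rfl⟩)
  let y : B ⊗[E] S := ∑ d ∈ s.attach, (⟨d.1.2, ht d.1 d.2⟩ : B) ⊗ₜ[E] d.1.1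
  have hy := alg_countable (E := E) (B := B) (S := S) hr y
  let φ : B ⊗[E] S →ₐ[E] S ⊗[E] D :=
    (Algebra.TensorProduct.map (AlgHom.id E S) B.val).comp
      (Algebra.TensorProduct.comm E B S).toAlgHom
  have hφ : φ y = x := by
    rw [hs]
    simp only [φ, y, map_sum]
    rw [← Finset.sum_attach s]
    rfl
  rw [← hφ]
  exact hy.map φ

end Pool.Agent.Helper90.KZ
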