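import Pool.Agent.Helper91.KZ.StG

namespace Pool.Agent.Helper90.KZ

open Polynomial TensorProduct Pool.Agent.Helper91.KZ

universe u

theorem fdg_basis {K D K' : Type u} [Field K] [DivisionRing D] [Algebra K D] [Field K']
    [Algebra K K'] (pb : PowerBasis K K') (x : K' ⊗[K] D) :
    ∃ d : Fin pb.dim → D, x = ∑ i : Fin pb.dim, (pb.gen ^ (i : ℕ)) ⊗ₜ[K] d i := by
  induction x with
  | zero => exact ⟨fun _ => 0, by simp⟩
  | tmul a b =>
    refine ⟨fun i => pb.basis.repr a i • b, ?_⟩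
    conv_lhs => rw [← pb.basis.sum_repr a]
    rw [TensorProduct.sum_tmul]
    refine Finset.sum_congr rfl fun i _ => ?_
    rw [TensorProduct.smul_tmul, pb.basis_eq_pow]
  | add x y hx hy =>
    obtain ⟨d, hd⟩ := hx
    obtain ⟨e, he⟩ := hy
    refine ⟨fun i => d i + e i, ?_⟩
    rw [hd, he, ← Finset.sum_add_distrib]
    refine Finset.sum_congr rfl fun i _ => ?_
    rw [TensorProduct.tmul_add]

theorem FDG (AMI : ST_AMI.{u}) (INT : ST_INT.{u}) (SPC : ST_SPC.{u}) (GEN : ST_GEN.{u})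
    (BC : ST_BC.{u}) : ST_FDG.{u} := by
  classical
  intro K D _ _ _ _ _ hD K' _ _ _ x hx hirr
  have hinf : Infinite K := inferInstance
  have hsep : Algebra.IsSeparable K K' := inferInstance
  let pb : PowerBasis K K' := Field.powerBasisOfFiniteOfSeparable K K'
  obtain ⟨d, hd⟩ := fdg_basis pb x
  let z : D[X] := ∑ i : Fin pb.dim, C (d i) * X ^ (i : ℕ)
  obtain ⟨Q1, hQ1, hQ1'⟩ := AMI K D z hD
  obtain ⟨P, hP⟩ := INT K D z Q1 hQ1 hQ1'
  obtain ⟨l, -, hl⟩ := GEN K D z P hP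
  refine ⟨vl l z, ?_⟩
  rw [hl]
  have hB := BC K D K' z P hP
  have hnt : Nontrivial (K' ⊗[K] D) := inferInstance
  have hv : vl pb.gen (z.map (Algebra.TensorProduct.includeRight : D →ₐ[K] K' ⊗[K] D).toRingHom)
      = x := by
    rw [hd]
    unfold vl
    simp only [z, Polynomial.map_sum, Polynomial.map_mul, Polynomial.map_C, Polynomial.map_pow,
      Polynomial.map_X, eval_finsetSum]
    refine Finset.sum_congr rfl fun i _ => ?_
    rw [eval_C_mul, eval_X_pow, ← map_pow, ← Algebra.commutes]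
    change ((pb.gen ^ (i : ℕ)) ⊗ₜ[K] (1 : D)) * ((1 : K') ⊗ₜ[K] d i) = _
    rw [Algebra.TensorProduct.tmul_mul_tmul, mul_one, one_mul]
  obtain ⟨j, hj⟩ := SPC K' (K' ⊗[K] D) _ _ pb.gen hB (by rw [hv]; exact hx) (by rw [hv]; exact hirr)
  rw [hv] at hj
  have := congrArg natDegree hj
  rw [(hP.mon.map _).natDegree_map, hP.mon.natDegree_map, natDegree_pow] at this
  rw [this]
  exact dvd_mul_left _ _

end Pool.Agent.Helper90.KZ
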