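import Pool.Agent.Helper91.KZ.StG

namespace Pool.Agent.Helper90.KZ

open Polynomial TensorProduct Pool.Agent.Helper91.KZ

universe u

theorem mul_z_vl {K A : Type u} [Field K] [Ring A] [Algebra K A] (a b : A) (l : K) :
    vl l (C a + C b * X) = a + b * algebraMap K A l := by
  unfold vl
  rw [eval_add, eval_C, eval_C_mul, eval_X]

/-- a root of the constant coefficient is a root of the minimal polynomial -/
theorem mul_root (NU : ST_NU.{u}) (BC : ST_BC.{u}) {K D : Type u} [Field K] [DivisionRing D]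
    [Algebra K D] (x y : D) (hy : y ≠ 0) (P : K[X][X]) (hP : GM (C (-(x * y)) + C y * X) P)
    (K' : Type u) [Field K'] [Algebra K K'] (μ : K') (h0 : aeval μ (P.coeff 0) = 0) :
    aeval μ (minpoly K x) = 0 := by
  have hB := BC K D K' _ P hP
  set inc : D →ₐ[K] K' ⊗[K] D := Algebra.TensorProduct.includeRight with hinc
  have hnt : Nontrivial (K' ⊗[K] D) := inferInstance
  have hn := NU K' (K' ⊗[K] D) _ _ μ 0 hB (by
    rw [← coeff_zero_eq_eval_zero, coeff_map, coeff_map]
    rw [aeval_def, ← eval_map] at h0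
    exact h0)
  have hz : (C (-(x * y)) + C y * X : D[X]).map inc.toRingHom
      = C (inc (-(x * y))) + C (inc y) * X := by
    rw [Polynomial.map_add, Polynomial.map_mul, map_C, map_C, map_X]
    rfl
  rw [hz, mul_z_vl, map_zero, sub_zero] at hn
  have hyu : IsUnit (inc y) := (IsUnit.mk0 y hy).map inc
  have hv : inc (-(x * y)) + inc y * algebraMap K' (K' ⊗[K] D) μ
      = (algebraMap K' (K' ⊗[K] D) μ - inc x) * inc y := by
    rw [map_neg, map_mul, sub_mul, Algebra.commutes]
    abel
  rw [hv] at hn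
  have hn2 : ¬ IsUnit (algebraMap K' (K' ⊗[K] D) μ - inc x) := fun h => hn (h.mul hyu)
  by_contra hne
  apply hn2
  set m := (minpoly K x).map (algebraMap K K') with hm
  have hm0 : m.eval μ ≠ 0 := by
    rw [aeval_def, ← eval_map] at hne
    exact hne
  obtain ⟨q, hq⟩ := X_sub_C_dvd_sub_C_eval (a := μ) (p := m)
  have hax : aeval (inc x) m = 0 := by
    rw [hm, aeval_map_algebraMap, aeval_algHom_apply, minpoly.aeval, map_zero]
  have h1 := congrArg (aeval (inc x)) hq
  rw [map_sub, hax, map_mul, map_sub, aeval_X, aeval_C, aeval_C, zero_sub] at h1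
  have h2 := congrArg (aeval (inc x)) ((hq.trans (mul_comm _ _)))
  rw [map_sub, hax, map_mul, map_sub, aeval_X, aeval_C, aeval_C, zero_sub] at h2
  set c := m.eval μ with hc
  set M := algebraMap K' (K' ⊗[K] D) μ with hM
  set Q := aeval (inc x) q with hQ
  have e1 : (M - inc x) * (algebraMap K' (K' ⊗[K] D) c⁻¹ * Q) = 1 := by
    rw [← mul_assoc, ← Algebra.commutes, mul_assoc]
    have : (M - inc x) * Q = algebraMap K' _ c := by
      rw [← neg_sub (inc x) M, neg_mul, ← h1, neg_neg]
    rw [this, ← map_mul, inv_mul_cancel₀ hm0, map_one]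
  have e2 : (algebraMap K' (K' ⊗[K] D) c⁻¹ * Q) * (M - inc x) = 1 := by
    rw [mul_assoc]
    have : Q * (M - inc x) = algebraMap K' _ c := by
      rw [← neg_sub (inc x) M, mul_neg, ← h2, neg_neg]
    rw [this, ← map_mul, inv_mul_cancel₀ hm0, map_one]
  exact ⟨⟨_, _, e1, e2⟩, rfl⟩

theorem mul_pos {K D : Type u} [Field K] [DivisionRing D] [Algebra K D] {x : D}
    (hx : IsIntegral K x) : 0 < dg K x := minpoly.natDegree_pos hx

theorem MUL (AMI : ST_AMI.{u}) (INT : ST_INT.{u}) (SPC : ST_SPC.{u}) (GEN : ST_GEN.{u})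
    (REV : ST_REV.{u}) (NU : ST_NU.{u}) (BC : ST_BC.{u}) : ST_MUL.{u} := by
  classical
  intro K D _ _ _ _ hD x y hx hy
  have hinf : Infinite K := inferInstance
  obtain ⟨Q1, hQ1, hQ1'⟩ := AMI K D (C (-(x * y)) + C y * X) hD
  obtain ⟨P, hP⟩ := INT K D _ Q1 hQ1 hQ1'
  obtain ⟨Q2, hQ2, hQ2'⟩ := AMI K D (C y + C (-(x * y)) * X) hD
  obtain ⟨P2, hP2⟩ := INT K D _ Q2 hQ2 hQ2'
  obtain ⟨r1, r2, r3⟩ := REV K D (-(x * y)) y P P2 hP hP2
  obtain ⟨l, -, hl⟩ := GEN K D _ P hP
  have irr : ∀ v : D, Irreducible (minpoly K v) := fun v => minpoly.irreducible (hD v)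
  obtain ⟨j, hj⟩ := SPC K D _ P 0 hP (hD _) (irr _)
  obtain ⟨k, hk⟩ := SPC K D _ P2 0 hP2 (hD _) (irr _)
  rw [mul_z_vl, map_zero, mul_zero, add_zero] at hj hk
  set n := P.natDegree with hn
  -- specialisation of the degrees
  have dj : n = j * dg K (x * y) := by
    have := congrArg natDegree hj
    rw [hP.mon.natDegree_map, natDegree_pow] at this
    have h2 : (minpoly K (-(x * y))).natDegree = (minpoly K (x * y)).natDegree := by
      have e1 : ((-1 : K[X]) ^ (minpoly K (x * y)).natDegree)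
          = C ((-1 : K) ^ (minpoly K (x * y)).natDegree) := by
        rw [C_pow, C_neg, C_1]
      rw [minpoly.neg, e1, natDegree_C_mul (pow_ne_zero _ (neg_ne_zero.2 one_ne_zero)),
        natDegree_comp, natDegree_neg, natDegree_X, mul_one]
    rw [h2] at this
    exact this
  have dk : n = k * dg K y := by
    have := congrArg natDegree hk
    rw [hP2.mon.natDegree_map, natDegree_pow] at this
    rw [r1, this]
    rfl
  have cj : (P.coeff 0).eval 0 = (minpoly K (-(x * y))).coeff 0 ^ j := by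
    have := congrArg (eval 0) hj
    rw [← coeff_zero_eq_eval_zero, coeff_map, eval_pow, ← coeff_zero_eq_eval_zero] at this
    exact this
  have ck : (P2.coeff 0).coeff 0 = (minpoly K y).coeff 0 ^ k := by
    have := congrArg (eval 0) hk
    rw [← coeff_zero_eq_eval_zero, coeff_map, eval_pow, ← coeff_zero_eq_eval_zero] at this
    rw [coeff_zero_eq_eval_zero]
    exact this
  set h := P.coeff 0 with hh
  have my0 : (minpoly K y).coeff 0 ≠ 0 := minpoly.coeff_zero_ne_zero (hD y) hy
  have hcn : h.coeff n = (minpoly K y).coeff 0 ^ k := r3.trans ck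
  have hcn0 : h.coeff n ≠ 0 := by
    rw [hcn]
    exact pow_ne_zero _ my0
  have h0 : h ≠ 0 := by
    intro h0
    rw [h0, coeff_zero] at hcn0
    exact hcn0 rfl
  have hdeg : h.natDegree = n := le_antisymm r2 (le_natDegree_of_ne_zero hcn0)
  have hlc : h.leadingCoeff = (minpoly K y).coeff 0 ^ k := by
    rw [leadingCoeff, hdeg, hcn]
  -- the irreducible factors of h
  have hfac : ∀ {g : K[X]}, g ∈ UniqueFactorizationMonoid.normalizedFactors h →
      g = minpoly K x := by
    intro g hg
    have gi := UniqueFactorizationMonoid.irreducible_of_normalized_factor g hg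
    have gn := UniqueFactorizationMonoid.normalize_normalized_factor g hg
    have gd := UniqueFactorizationMonoid.dvd_of_mem_normalizedFactors hg
    have : Fact (Irreducible g) := ⟨gi⟩
    have h1 := mul_root NU BC x y hy P hP (AdjoinRoot g) (AdjoinRoot.root g) (by
      rw [AdjoinRoot.aeval_eq, AdjoinRoot.mk_eq_zero]
      exact gd)
    rw [AdjoinRoot.aeval_eq, AdjoinRoot.mk_eq_zero] at h1
    have h2 : Associated g (minpoly K x) := (gi.dvd_irreducible_iff_associated (irr x)).1 h1
    have h3 := normalize_eq_normalize_iff_associated.2 h2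
    rw [gn, (minpoly.monic (hD x)).normalize_eq_self] at h3
    exact h3
  obtain ⟨e, he⟩ :=
    UniqueFactorizationMonoid.exists_associated_prime_pow_of_unique_normalized_factor hfac h0
  have hmx := minpoly.monic (hD x)
  have hform : h = C ((minpoly K y).coeff 0 ^ k) * minpoly K x ^ e := by
    obtain ⟨c, hc⟩ := he
    obtain ⟨c', hc', hc2⟩ := Polynomial.isUnit_iff.1 c.isUnit
    rw [← hc2] at hc
    have h1 := congrArg leadingCoeff hc
    rw [leadingCoeff_mul, (hmx.pow e).leadingCoeff, leadingCoeff_C, one_mul, hlc] at h1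
    rw [← h1, ← hc, mul_comm]
  have de : n = e * dg K x := by
    have := congrArg natDegree hform
    rw [hdeg, natDegree_C_mul (pow_ne_zero _ my0), natDegree_pow] at this
    exact this
  have key : (minpoly K (-(x * y))).coeff 0 ^ j
      = (minpoly K y).coeff 0 ^ k * (minpoly K x).coeff 0 ^ e := by
    rw [← cj, hform, eval_mul, eval_C, eval_pow, coeff_zero_eq_eval_zero (minpoly K x)]
  refine ⟨vl l (C (-(x * y)) + C y * X), ?_, ?_, ?_, ?_⟩
  · rw [hl, de]
    exact dvd_mul_left _ _
  · rw [hl, dk]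
    exact dvd_mul_left _ _
  · rw [hl, dj]
    exact dvd_mul_left _ _
  rw [hl]
  have q1 : n / dg K (x * y) = j := by
    rw [dj]
    exact Nat.mul_div_cancel _ (mul_pos (hD _))
  have q2 : n / dg K x = e := by
    rw [de]
    exact Nat.mul_div_cancel _ (mul_pos (hD _))
  have q3 : n / dg K y = k := by
    rw [dk]
    exact Nat.mul_div_cancel _ (mul_pos (hD _))
  unfold NN
  rw [q1, q2, q3]
  have hneg : (minpoly K (-(x * y))).coeff 0
      = (-1) ^ dg K (x * y) * (minpoly K (x * y)).coeff 0 := by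
    rw [minpoly.neg, coeff_zero_eq_eval_zero, eval_mul, eval_pow, eval_neg, eval_one, eval_comp,
      eval_neg, eval_X, neg_zero, ← coeff_zero_eq_eval_zero]
    rfl
  rw [← hneg, key, _root_.mul_pow, _root_.mul_pow, ← pow_mul, ← pow_mul]
  have s1 : (-1 : K) ^ (dg K x * e) = (-1) ^ n := by rw [de, mul_comm]
  have s2 : (-1 : K) ^ (dg K y * k) = (-1) ^ n := by rw [dk, mul_comm]
  rw [s1, s2]
  have s3 : (-1 : K) ^ n * (-1) ^ n = 1 := by rw [← mul_pow]; simp
  calc _ = ((-1 : K) ^ n * (-1) ^ n) * ((minpoly K x).coeff 0 ^ e * (minpoly K y).coeff 0 ^ k) := by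
        rw [s3, one_mul, mul_comm]
    _ = _ := by ring

end Pool.Agent.Helper90.KZ
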