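import Pool.Agent.Helper91.KZ.StS

namespace Pool.Agent.Helper90.KZ

open Polynomial TensorProduct Pool.Agent.Helper91.KZ

universe u

/-- a left `D`-vector space ring isomorphic to `Mat_r` has dimension divisible by `r` -/
theorem rdv_aux {D V : Type u} [DivisionRing D] [Ring V] [Module D V] [IsScalarTower D V V]
    [Module.Finite D V] (r : ℕ) (e : Fin r → Fin r → V)
    (hm : ∀ i j k, e i j * e j k = e i k) (ho : ∀ i j k l, j ≠ k → e i j * e k l = 0)
    (h1 : ∑ i, e i i = 1) : r ∣ Module.finrank D V := by
  classical
  rcases Nat.eq_zero_or_pos r with hr | hr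
  · subst hr
    have h01 : (0 : V) = 1 := by
      rw [← h1]
      simp
    have : Subsingleton V := subsingleton_of_zero_eq_one h01
    rw [Module.finrank_zero_of_subsingleton]
  let o : Fin r := ⟨0, hr⟩
  let W : Submodule D V :=
    { carrier := {v | v * e o o = v}
      add_mem' := fun {a b} ha hb => by
        change (a + b) * e o o = a + b
        rw [add_mul]
        exact congrArg₂ (· + ·) ha hb
      zero_mem' := zero_mul _
      smul_mem' := fun c v hv => by
        change (c • v) * e o o = c • v
        rw [smul_mul_assoc]
        exact congrArg (c • ·) hv }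
  have hW : ∀ v, v ∈ W ↔ v * e o o = v := fun v => Iff.rfl
  let φ : V ≃ₗ[D] (Fin r → W) :=
    { toFun := fun v k => ⟨v * e k o, by rw [hW, mul_assoc, hm]⟩
      map_add' := fun v w => by
        funext k
        exact Subtype.ext (add_mul v w (e k o))
      map_smul' := fun c v => by
        funext k
        exact Subtype.ext (smul_mul_assoc c v (e k o))
      invFun := fun w => ∑ k, (w k : V) * e o k
      left_inv := fun v => by
        change ∑ k, v * e k o * e o k = v
        have : ∀ k, v * e k o * e o k = v * e k k := fun k => by rw [mul_assoc, hm]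
        rw [Finset.sum_congr rfl fun k _ => this k, ← Finset.mul_sum, h1, mul_one]
      right_inv := fun w => by
        funext l
        apply Subtype.ext
        change (∑ k, (w k : V) * e o k) * e l o = w l
        rw [Finset.sum_mul, Finset.sum_eq_single l]
        · rw [mul_assoc, hm]
          exact (w l).2
        · intro k _ hk
          rw [mul_assoc, ho _ _ _ _ hk, mul_zero]
        · intro h
          exact absurd (Finset.mem_univ l) h }
  rw [φ.finrank_eq, Module.finrank_pi_fintype, Finset.sum_const, Finset.card_univ, Fintype.card_fin,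
    smul_eq_mul]
  exact dvd_mul_right _ _

theorem RDV : ST_RDV.{u} := by
  classical
  intro E S D Δ _ _ _ _ _ _ _ r hr hf
  obtain ⟨f⟩ := hf
  let g : D ⊗[E] S ≃+* Matrix (Fin r) (Fin r) Δ :=
    (Algebra.TensorProduct.comm E D S).toRingEquiv.trans f
  have h := rdv_aux (D := D) (V := D ⊗[E] S) r
    (fun i j => g.symm (Matrix.single i j 1))
    (fun i j k => by rw [← map_mul, Matrix.single_mul_single_same, mul_one])
    (fun i j k l hjk => by
      rw [← map_mul, Matrix.single_mul_single_of_ne _ _ _ _ hjk, map_zero])
    (by
      rw [← map_sum]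
      rw [Matrix.sum_single_one, map_one])
  rwa [Module.finrank_baseChange] at h

end Pool.Agent.Helper90.KZ
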