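import Pool.Agent.Helper91.KZ.StG

namespace Pool.Agent.Helper90.KZ

open Polynomial TensorProduct Pool.Agent.Helper91.KZ

universe u

/-- if `x - μ` is not a unit, then `μ` is a root of every polynomial killing `x` -/
theorem root_of_nonunit {K' A : Type u} [Field K'] [Ring A] [Algebra K' A] (x : A) (μ : K')
    (m : K'[X]) (hax : aeval x m = 0) (hn : ¬ IsUnit (x - algebraMap K' A μ)) : m.eval μ = 0 := by
  by_contra hm0
  apply hn
  obtain ⟨q, hq⟩ := X_sub_C_dvd_sub_C_eval (a := μ) (p := m)
  have h1 := congrArg (aeval x) hq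
  rw [map_sub, hax, map_mul, map_sub, aeval_X, aeval_C, aeval_C, zero_sub] at h1
  have h2 := congrArg (aeval x) ((hq.trans (mul_comm _ _)))
  rw [map_sub, hax, map_mul, map_sub, aeval_X, aeval_C, aeval_C, zero_sub] at h2
  set c := m.eval μ with hc
  set M := algebraMap K' A μ with hM
  set Q := aeval x q with hQ
  have e1 : (x - M) * (algebraMap K' A (-c⁻¹) * Q) = 1 := by
    rw [← mul_assoc, ← Algebra.commutes, mul_assoc, ← h1, ← map_neg, ← map_mul, neg_mul_neg,
      inv_mul_cancel₀ hm0, map_one]
  have e2 : (algebraMap K' A (-c⁻¹) * Q) * (x - M) = 1 := by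
    rw [mul_assoc, ← h2, ← map_neg, ← map_mul, neg_mul_neg, inv_mul_cancel₀ hm0, map_one]
  exact ⟨⟨_, _, e1, e2⟩, rfl⟩

/-- values and base change -/
theorem vl_map {K A : Type u} [Field K] [Ring A] [Algebra K A] (K' : Type u) [Field K']
    [Algebra K K'] (z : A[X]) (l : K) :
    vl (algebraMap K K' l) (z.map (Algebra.TensorProduct.includeRight : A →ₐ[K] K' ⊗[K] A).toRingHom)
      = (Algebra.TensorProduct.includeRight : A →ₐ[K] K' ⊗[K] A) (vl l z) := by
  unfold vl
  have h1 : algebraMap K' (K' ⊗[K] A) (algebraMap K K' l)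
      = (Algebra.TensorProduct.includeRight : A →ₐ[K] K' ⊗[K] A).toRingHom
        (algebraMap K A l) := by
    rw [← IsScalarTower.algebraMap_apply]
    exact (AlgHom.commutes _ l).symm
  rw [h1, eval_map, eval₂_at_apply]
  rfl

theorem SPC (BC : ST_BC.{u}) (NU : ST_NU.{u}) : ST_SPC.{u} := by
  classical
  intro K A _ _ _ _ z P l hP hint hirr
  set f := minpoly K (vl l z) with hf
  set R := P.map (evalRingHom l) with hR
  have hRm : R.Monic := hP.mon.map _
  have hfac : ∀ {g : K[X]}, g ∈ UniqueFactorizationMonoid.normalizedFactors R → g = f := by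
    intro g hg
    have gi := UniqueFactorizationMonoid.irreducible_of_normalized_factor g hg
    have gn := UniqueFactorizationMonoid.normalize_normalized_factor g hg
    have gd := UniqueFactorizationMonoid.dvd_of_mem_normalizedFactors hg
    have : Fact (Irreducible g) := ⟨gi⟩
    have hB := BC K A (AdjoinRoot g) z P hP
    have hnt : Nontrivial (AdjoinRoot g ⊗[K] A) := inferInstance
    have hn := NU (AdjoinRoot g) (AdjoinRoot g ⊗[K] A) _ _ (algebraMap K (AdjoinRoot g) l)
      (AdjoinRoot.root g) hB (by
        have h1 : (P.map (mapRingHom (algebraMap K (AdjoinRoot g)))).map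
            (evalRingHom (algebraMap K (AdjoinRoot g) l)) = R.map (algebraMap K (AdjoinRoot g)) := by
          rw [hR, Polynomial.map_map, Polynomial.map_map]
          congr 1
          refine RingHom.ext fun w => ?_
          simp only [RingHom.comp_apply, coe_mapRingHom, coe_evalRingHom]
          rw [eval_map, eval₂_at_apply]
        rw [h1, eval_map, ← aeval_def, AdjoinRoot.aeval_eq, AdjoinRoot.mk_eq_zero]
        exact gd)
    rw [vl_map] at hn
    have h1 := root_of_nonunit _ _ (f.map (algebraMap K (AdjoinRoot g))) (by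
      rw [aeval_map_algebraMap, aeval_algHom_apply, minpoly.aeval, map_zero]) hn
    rw [eval_map, ← aeval_def, AdjoinRoot.aeval_eq, AdjoinRoot.mk_eq_zero] at h1
    have h2 : Associated g f := (gi.dvd_irreducible_iff_associated hirr).1 h1
    have h3 := normalize_eq_normalize_iff_associated.2 h2
    rw [gn, (minpoly.monic hint).normalize_eq_self] at h3
    exact h3
  obtain ⟨j, hj⟩ :=
    UniqueFactorizationMonoid.exists_associated_prime_pow_of_unique_normalized_factor hfac hRm.ne_zero
  exact ⟨j, (eq_of_monic_of_associated ((minpoly.monic hint).pow j) hRm hj).symm⟩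

end Pool.Agent.Helper90.KZ
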