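import Pool.Agent.Helper90.KZ.TS

namespace Pool.Agent.Helper90.KZ

open Polynomial TensorProduct Pool.Agent.Helper91.KZ

universe u

theorem TK (SIM : ST_SIM.{u}) (ALG : ST_ALG.{u}) (RDV : ST_RDV.{u}) : ST_TK.{u} := by
  intro E D K _ _ _ _ _ _ hK hD
  have hs0 := hK.sim
  have hf := hK.fin
  obtain ⟨hs, hc⟩ := SIM E D K hD.cen hs0
  have ha : IsArtinianRing (K ⊗[E] D) := artin_of
  obtain ⟨r, Δ, i1, i2, hcor⟩ := cor_of (M := E) (R := K ⊗[E] D)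
    (fun x => ALG E D K hD.alg x)
    (fun x hx => by
      obtain ⟨b, hb1, hb⟩ := hc x hx
      obtain ⟨e, he⟩ := hK.cen b hb1
      refine ⟨e, ?_⟩
      rw [← hb, ← he]
      rfl)
  refine ⟨r, Δ, i1, i2, hcor, ?_⟩
  obtain ⟨f⟩ := hcor.2.2
  exact RDV E K D Δ r hcor.2.1 ⟨f.toRingEquiv⟩

end Pool.Agent.Helper90.KZ
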