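import Pool.Agent.Helper91.KZ.StS

namespace Pool.Agent.Helper90.KZ

open Polynomial TensorProduct Pool.Agent.Helper91.KZ

universe u

/-- a simple artinian ring algebraic over its centre `M` has a core -/
theorem cor_of {M R : Type u} [Field M] [Ring R] [Algebra M R] [IsSimpleRing R] [IsArtinianRing R]
    (hint : ∀ x : R, IsIntegral M x)
    (hcen : ∀ x : R, (∀ y, x * y = y * x) → ∃ m, algebraMap M R m = x) :
    ∃ (r : ℕ) (Δ : Type u) (_ : DivisionRing Δ) (_ : Algebra M Δ), Cor M R Δ r := by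
  classical
  obtain ⟨n, hn, Δ, _, _, ⟨e⟩⟩ := IsSimpleRing.exists_algEquiv_matrix_divisionRing M R
  refine ⟨n, Δ, inferInstance, inferInstance, ⟨?_, ?_⟩, Nat.pos_of_ne_zero hn.out, ⟨e⟩⟩
  · intro δ
    have h1 : IsIntegral M (e (e.symm (Matrix.scalar (Fin n) δ))) :=
      (hint _).map e.toAlgHom
    rw [e.apply_symm_apply] at h1
    have h2 : Function.Injective (Matrix.scalarAlgHom (Fin n) M (α := Δ)) := by
      intro a b hab
      exact Matrix.scalar_inj.1 hab
    exact (isIntegral_algHom_iff (Matrix.scalarAlgHom (Fin n) M (α := Δ)) h2).1 h1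
  · intro δ hδ
    obtain ⟨m, hm⟩ := hcen (e.symm (Matrix.scalar (Fin n) δ)) (fun y => by
      apply e.injective
      rw [map_mul, map_mul, e.apply_symm_apply]
      exact Matrix.scalar_commute δ hδ (e y))
    refine ⟨m, ?_⟩
    have h1 := congrArg e hm
    rw [e.apply_symm_apply, AlgEquiv.commutes] at h1
    exact Matrix.scalar_inj.1 h1

/-- finite tensor products with division rings are artinian -/
theorem artin_of {E S D : Type u} [Field E] [Ring S] [Algebra E S] [FiniteDimensional E S]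
    [DivisionRing D] [Algebra E D] : IsArtinianRing (S ⊗[E] D) := by
  have h1 : IsArtinian D (D ⊗[E] S) := inferInstance
  have h2 : IsArtinianRing (D ⊗[E] S) := isArtinian_of_tower D h1
  exact (Algebra.TensorProduct.comm E D S).toRingEquiv.isArtinianRing

theorem TS (SIM : ST_SIM.{u}) (ALG : ST_ALG.{u}) (RDV : ST_RDV.{u}) : ST_TS.{u} := by
  intro E D M _ _ _ _ _ _ _ hD
  have hM : IsSimpleRing M := inferInstance
  obtain ⟨hs, hc⟩ := SIM E D M hD.cen hM
  have ha : IsArtinianRing (M ⊗[E] D) := artin_of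
  obtain ⟨r, Δ, i1, i2, hcor⟩ := cor_of (M := M) (R := M ⊗[E] D)
    (fun x => (ALG E D M hD.alg x).tower_top)
    (fun x hx => by
      obtain ⟨b, -, hb⟩ := hc x hx
      exact ⟨b, hb⟩)
  refine ⟨r, Δ, i1, i2, hcor, ?_⟩
  obtain ⟨f⟩ := hcor.2.2
  exact RDV E M D Δ r hcor.2.1 ⟨f.toRingEquiv⟩

end Pool.Agent.Helper90.KZ
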